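import Pool.Agent.Y723.Z8.Stm

/-! Project Z8 (helper723), job CMB: combinatorics of the letters. -/

set_option autoImplicit false

namespace Pool.Agent.Y492.Z8

open Finset
open Pool.Agent.W262.RK (Al I4 L4)
open Pool.Agent.W307.RT (QN)
open Pool.Agent.Y723.Z8

/-- index, is `v` nonzero, is `χ` nonzero; copy -/
abbrev X7 : Type := (Fin 7 × Bool × Bool) × Bool

/-- class, is `v` nonzero, is `χ` nonzero -/
abbrev Y7 : Type := Fin 4 × Bool × Bool

/-- the class and the type -/
def cl (x : X7) : Y7 := (c7 x.1.1, x.1.2)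

/-- the symbols -/
def LY (x y : Y7) : Bool := decide (x.1 ≠ y.1) && x.2.1 && y.2.2

/-- the exceptional letters -/
def NE (x : X7) : Bool := decide (5 ≤ x.1.1.val) && x.1.2.1 && x.1.2.2

/-- the letters without symbols with these -/
def QE (x : X7) : Bool := (!x.1.2.1 && !x.1.2.2) || (decide (c7 x.1.1 = 2) && !(NE x))

/-- the type -/
def ty (i : I8) : X7 :=
  ((i.1.1.1, decide (i.1.1.2.1 ≠ (false, false)), decide (i.1.1.2.2 ≠ (false, false))), i.2)

theorem c7_ne (j : Fin 7) : c7 j ≠ 3 := by revert j; decide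

theorem L_ty_aux : ∀ c c' : Fin 4, c ≠ 3 → c' ≠ 3 → ∀ v x v' x' : Bool × Bool, Al c v x = true →
    Al c' v' x' = true → xor (x'.1 && v.1) (x'.2 && v.2) =
      (decide (c ≠ c') && decide (v ≠ (false, false)) && decide (x' ≠ (false, false))) := by
  decide +kernel

theorem L_ty (i i' : I8) : L8 i i' = LY (cl (ty i)) (cl (ty i')) :=
  L_ty_aux _ _ (c7_ne _) (c7_ne _) _ _ _ _ i.1.2 i'.1.2

theorem ty_inj_aux : ∀ c : Fin 4, ∀ v x v' x' : Bool × Bool,
    (decide (c ≠ 3) && Al c v x && Al c v' x' &&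
      (decide (v ≠ (false, false)) == decide (v' ≠ (false, false))) &&
      (decide (x ≠ (false, false)) == decide (x' ≠ (false, false)))) = true →
      v = v' ∧ x = x' := by
  decide +kernel

theorem ty_inj : Function.Injective ty := by
  rintro ⟨⟨⟨j, v, x⟩, h⟩, b⟩ ⟨⟨⟨j', v', x'⟩, h'⟩, b'⟩ hh
  unfold ty at hh
  simp only [Prod.mk.injEq] at hh
  obtain ⟨⟨h1, h2, h3⟩, h0⟩ := hh
  subst h1 h0
  obtain ⟨h4, h5⟩ := ty_inj_aux (c7 j) v x v' x' (by
    have e1 : Al (c7 j) v x = true := h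
    have e2 : Al (c7 j) v' x' = true := h'
    rw [e1, e2, h2, h3]
    simp [c7_ne j])
  subst h4 h5
  rfl

theorem mem_N {i : I8} : i ∈ N8s ↔ NE (ty i) = true := by
  unfold N8s NE ty
  rw [mem_filter]
  simp only [mem_univ, true_and, Bool.and_eq_true, decide_eq_true_eq, and_assoc]

/-- an exceptional letter -/
def n0 : I8 := (⟨(5, (false, true), (true, false)), by decide⟩, false)

theorem ty_n0 : ty n0 = ((5, true, true), false) := by decide

theorem Q_aux1 : ∀ x : X7, NE x = false → LY (cl x) (cl ((5, true, true), false)) = false →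
    LY (cl ((5, true, true), false)) (cl x) = false → QE x = true := by
  decide +kernel

theorem Q_aux2 : ∀ x y : X7, QE x = true → NE y = true →
    LY (cl x) (cl y) = false ∧ LY (cl y) (cl x) = false := by
  decide +kernel

theorem Q_aux3 : ∀ x : X7, QE x = true → NE x = false := by
  decide +kernel

theorem mem_Q {i : I8} : i ∈ QN L8 N8s ↔ QE (ty i) = true := by
  classical
  have hQ : i ∈ QN L8 N8s ↔ i ∉ N8s ∧ ∀ n ∈ N8s, L8 i n = false ∧ L8 n i = false := by
    simp [QN]
  rw [hQ, mem_N]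
  constructor
  · rintro ⟨h1, h2⟩
    have hn : n0 ∈ N8s := by rw [mem_N, ty_n0]; decide
    obtain ⟨h3, h4⟩ := h2 n0 hn
    rw [L_ty, ty_n0] at h3 h4
    exact Q_aux1 _ (by simpa using h1) h3 h4
  · intro h
    refine ⟨by rw [Q_aux3 _ h]; simp, fun n hn => ?_⟩
    rw [mem_N] at hn
    rw [L_ty, L_ty]
    exact Q_aux2 _ _ h hn

theorem card_Q : (univ.filter (fun x : X7 => QE x = true)).card ≤ 28 := by decide +kernel

theorem QQ_aux : ∀ x y : X7, QE x = true → QE y = true → LY (cl x) (cl y) = false := by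
  decide +kernel

theorem NN_aux : ∀ x y : X7, NE x = true → NE y = true → LY (cl x) (cl y) = false := by
  decide +kernel

theorem A_card : ∀ f : Bool × Bool,
    (univ.filter (fun x : X7 => x.1.2 = (false, false) ∨ x.1.2 = f)).card ≤ 28 := by
  decide +kernel

theorem B_card : ∀ c : Fin 4, c ≠ 2 →
    (univ.filter (fun x : X7 => x.1.2 = (false, false) ∨ c7 x.1.1 = c)).card ≤ 28 := by
  decide +kernel

theorem AB_aux : ∀ k x y : Y7, LY k x = LY x k → LY k y = LY y k → LY x y = LY y x →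
    ¬ (x.2 = (false, false) ∨ x.2 = k.2) → k.2 ≠ (false, false) →
    (y.2 = (false, false) ∨ y.1 = k.1) := by
  decide +kernel

theorem K_aux : ∀ k : X7, NE k = false → QE k = false →
    k.1.2 ≠ (false, false) ∧ c7 k.1.1 ≠ 2 := by
  decide +kernel

theorem comb7 (U : Finset X7) (hU : ∀ x ∈ U, ∀ y ∈ U, LY (cl x) (cl y) = LY (cl y) (cl x)) {k : X7}
    (hk : k ∈ U) (h1 : NE k = false) (h2 : QE k = false) : U.card ≤ 28 := by
  obtain ⟨h3, h4⟩ := K_aux k h1 h2
  by_cases h : ∀ x ∈ U, x.1.2 = (false, false) ∨ x.1.2 = k.1.2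
  · refine (card_le_card fun x hx => ?_).trans (A_card k.1.2)
    exact mem_filter.2 ⟨mem_univ x, h x hx⟩
  · push Not at h
    obtain ⟨x, hx, hx1, hx2⟩ := h
    refine (card_le_card fun y hy => ?_).trans (B_card (c7 k.1.1) h4)
    exact mem_filter.2 ⟨mem_univ y, AB_aux (cl k) (cl x) (cl y) (hU k hk x hx) (hU k hk y hy)
      (hU x hx y hy) (by rw [not_or]; exact ⟨hx1, hx2⟩) h3⟩

theorem C_aux : ∀ b : X7, NE b = false → QE b = false → (univ.filter (fun x : X7 =>
    (QE x = true ∨ NE x = true) ∧ LY (cl x) (cl b) = LY (cl b) (cl x))).card ≤ 27 := by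
  decide +kernel

theorem sum_w (U : Finset I8) : ∑ _i ∈ U, (1 / 4 : ℝ) = (U.card : ℝ) / 4 := by
  rw [sum_const, nsmul_eq_mul]
  ring

theorem card_le_of (U : Finset I8) (V : Finset X7) (h : ∀ i ∈ U, ty i ∈ V) :
    U.card ≤ V.card := by
  rw [← card_image_of_injective U ty_inj]
  apply card_le_card
  intro x hx
  obtain ⟨i, hi, rfl⟩ := mem_image.1 hx
  exact h i hi

theorem cmb : S_CMB := by
  refine ⟨fun i => ?_, fun n hn m hm => ?_, fun i hi j hj => ?_, ?_, fun U hU hk => ?_,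
    fun b hb1 hb2 => ?_⟩
  · rw [L_ty]
    unfold LY
    simp
  · rw [mem_N] at hn hm
    rw [L_ty]
    exact NN_aux _ _ hn hm
  · rw [mem_Q] at hi hj
    rw [L_ty]
    exact QQ_aux _ _ hi hj
  · rw [sum_w]
    have h1 : (QN L8 N8s).card ≤ 28 := by
      refine (card_le_of _ (univ.filter (fun x : X7 => QE x = true)) fun i hi => ?_).trans card_Q
      rw [mem_Q] at hi
      exact mem_filter.2 ⟨mem_univ _, hi⟩
    have h2 : ((QN L8 N8s).card : ℝ) ≤ 28 := by exact_mod_cast h1
    linarith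
  · obtain ⟨k, hk, hk1, hk2⟩ := hk
    rw [mem_N] at hk1
    rw [mem_Q] at hk2
    rw [sum_w]
    have h1 : U.card ≤ 28 := by
      rw [← card_image_of_injective U ty_inj]
      apply comb7 _ _ (mem_image_of_mem ty hk) (by simpa using hk1) (by simpa using hk2)
      intro x hx y hy
      obtain ⟨i, hi, rfl⟩ := mem_image.1 hx
      obtain ⟨j, hj, rfl⟩ := mem_image.1 hy
      rw [← L_ty, ← L_ty]
      exact hU i hi j hj
    have h2 : (U.card : ℝ) ≤ 28 := by exact_mod_cast h1
    linarith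
  · rw [mem_N] at hb1
    rw [mem_Q] at hb2
    rw [sum_w]
    have h1 : ((QN L8 N8s ∪ N8s).filter (fun i => L8 i b = L8 b i)).card ≤ 27 := by
      refine (card_le_of _ _ fun i hi => ?_).trans
        (C_aux (ty b) (by simpa using hb1) (by simpa using hb2))
      rw [mem_filter, mem_union, mem_Q, mem_N, L_ty, L_ty] at hi
      exact mem_filter.2 ⟨mem_univ _, hi⟩
    have h2 : (((QN L8 N8s ∪ N8s).filter (fun i => L8 i b = L8 b i)).card : ℝ) ≤ 27 := by
      exact_mod_cast h1
    linarith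

end Pool.Agent.Y492.Z8
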